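import Pool.Agent.V7H59.CT.Diag

/-!
# Linear space is not contained in small time on massively parallel machines

Cellular automata of dimension `d` are parallel machines: all cells of `ℤ ^ d` are updated in every
step. `P` is the class of the languages decided by them in polynomial time. For every dimension `d`
there is a language in deterministic linear space (so in `PSPACE`) which they do not decide in time
`c n ^ (1 + 1 / d) / log n`, even if the automaton may depend on `n` and may have a polynomial number
of states. For `d = 1` the time is `c n ^ 2 / log n`.
-/

set_option autoImplicit false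

namespace Pool.Agent.Results.MP_f404b1_lc.CATimeSpaceH59

open Pool.Agent.V7H59.CT

/-- For every dimension `d ≥ 1` and every constant `c` there is a language `A` in deterministic
linear space such that for all large `n`, no `d`-dimensional cellular automaton with `q` states,
`q ^ (3 ^ d + 2) ≤ n`, decides `A` on the inputs of length `n` by its state at the origin at a time
`t` with `(t log n) ^ d (log q + 1) ≤ c n ^ (d + 1)`. -/
theorem result (d : ℕ) [NeZero d] (c : ℕ) : ∃ A : Set (List Bool), InLinSpace A ∧
    ∃ n₀ : ℕ, ∀ n ≥ n₀, ∀ M : CellAut d, Fintype.card M.Q ^ (3 ^ d + 2) ≤ n →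
      ∀ t : ℕ, (t * Nat.log 2 n) ^ d * (Nat.log 2 (Fintype.card M.Q) + 1) ≤ c * n ^ (d + 1) →
        ∃ x : List Bool, x.length = n ∧ ¬ (x ∈ A ↔ M.accepts x t) :=
  separation d c

end Pool.Agent.Results.MP_f404b1_lc.CATimeSpaceH59
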