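import Pool.Agent.V7H67.NM.Main

/-!
# Powers of automorphisms of free groups, evaluated in a finite group

Fix a finite group `G`. An endomorphism `φ` of the free group on `a_0, …, a_(n-1)` is given as a
composition of elementary substitutions `a_i ↦ a_j a_k` and `a_i ↦ a_j a_k⁻¹`, and `t` is given in
binary. The word `φ ^ t (a_0)` is in general of doubly exponential length. What is its value at
a given tuple `x_0, …, x_(n-1)` of elements of `G`? In other words: where does the action of `φ ^ t`
on `Hom(F_n, G) = G ^ n` send the tuple?
-/

namespace Pool.Agent.Results.MP_f404b1_lc.FreeGroupPowersH67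

open Pool.Agent.NPC Pool.Agent.H623R2.PS Pool.Agent.V7H67.NM

/-- **Dichotomy.** If the finite group `G` is nilpotent, the value of `φ ^ t (a_0)` at a tuple of
elements of `G` can be computed in polynomial time, for all endomorphisms `φ`. If `G` is not
nilpotent, it is `PSPACE`-complete to decide whether this value is a given element of `G`, even for
the automorphisms `φ` that are given as compositions of transvections `a_i ↦ a_i a_k` and
`a_i ↦ a_i a_k⁻¹`. So for each finite group `G` that is not nilpotent, `P = PSPACE` if and only if
the problem for `G` (or its restriction to compositions of transvections) is in `P`. -/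
theorem result {G : Type} [Group G] {m : ℕ} (e : G ≃ Fin m) :
    (Group.IsNilpotent G → InP (lang (Value e))) ∧
    (¬ Group.IsNilpotent G →
      PSPACEComplete (lang (Value e)) ∧
      PSPACEComplete (lang fun I => Value e I ∧ Transv I) ∧
      (InP (lang (Value e)) ↔ ∀ L, InPSPACE L → InP L) ∧
      (InP (lang fun I => Value e I ∧ Transv I) ↔ ∀ L, InPSPACE L → InP L)) ∧
    ∀ I : PInst, Transv I → Function.Bijective (endo I.2.1.length I.1) :=
  ⟨fun h => value_inP h e, fun h => ⟨value_complete h e, value_complete' h e,
    collapse_iff (value_complete h e), collapse_iff (value_complete' h e)⟩,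
    fun I h => endo_bijective _ I.1 h⟩

end Pool.Agent.Results.MP_f404b1_lc.FreeGroupPowersH67
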