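import Pool.Agent.V7H56.RG.Main

/-!
# `P = PSPACE` if and only if two groups are isomorphic

Let `LPerm` be the group of all length-preserving permutations of the set of bit strings, `PPerm` the
subgroup of those which are computable in polynomial time together with their inverses, and `SPerm`
the subgroup of those whose graph belongs to `PSPACE`. Each of the groups `PPerm`, `SPerm` embeds
into the other one. We show that they are isomorphic if and only if they satisfy the same first-order
sentences, if and only if `P = PSPACE`. We also show that both groups are rigid: every isomorphism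
from a group of length-preserving permutations which contains all transpositions and three simple
permutations onto one of the two groups `K` is (on the strings of length at least three) conjugation
by an element of `K`, so that the other group equals `K`.
-/

namespace Pool.Agent.Results.MP_f404b1_lc.IsomorphicGroupsH56

open Pool.Agent.NPC Pool.Agent.NPC.PIso Pool.Agent.V7H56.PP Pool.Agent.V7H56.RG

theorem result :
    -- the following are equivalent
    List.TFAE [
      -- `P = PSPACE`
      {L | InP L} = {L | InPSPACE L},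
      -- every polynomial-space permutation is a polynomial-time permutation
      SPerm = PPerm,
      -- the two groups are isomorphic
      Nonempty (SPerm ≃* PPerm),
      -- the two groups satisfy the same first-order sentences
      ElemEquiv PPerm SPerm,
      -- every element of `PPerm` is conjugate to its inverse
      ∀ g ∈ PPerm, ∃ h ∈ PPerm, h * g * h⁻¹ = g⁻¹,
      -- every element of `PPerm` is a product of two involutions
      ∀ g ∈ PPerm, ∃ a ∈ PPerm, ∃ b ∈ PPerm, a * a = 1 ∧ b * b = 1 ∧ g = a * b,
      -- elements of `PPerm` which are conjugate in `LPerm` are conjugate in `PPerm`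
      ∀ g ∈ PPerm, ∀ g' ∈ PPerm, (∃ h ∈ LPerm, h * g * h⁻¹ = g') →
        ∃ h ∈ PPerm, h * g * h⁻¹ = g'] ∧
    -- unconditionally, each of the two groups embeds into the other one
    (∃ f : PPerm →* SPerm, Function.Injective f) ∧ (∃ f : SPerm →* PPerm, Function.Injective f) ∧
    -- unconditionally, every element of `SPerm` is a product of two involutions
    (∀ g ∈ SPerm, ∃ a ∈ SPerm, ∃ b ∈ SPerm, a * a = 1 ∧ b * b = 1 ∧ g = a * b) ∧
    -- both groups are rigid
    ∀ K G : Subgroup (Equiv.Perm (List Bool)), (K = PPerm ∨ K = SPerm) → G ≤ LPerm →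
      (∀ x y : List Bool, x.length = y.length → Equiv.swap x y ∈ G) →
      rotP ∈ G → flpP ∈ G → cnotP ∈ G → ∀ Φ : G ≃* K,
        G = K ∧ ∃ θ ∈ K, ∀ (g : G) (x : List Bool), 3 ≤ x.length →
          θ ((g : Equiv.Perm (List Bool)) x) = (Φ g : Equiv.Perm (List Bool)) (θ x) := by
  have hsub : {L | InP L} = {L | InPSPACE L} → ∀ L, InPSPACE L → InP L := by
    intro h L hL
    have : L ∈ {L | InP L} := by rw [h]; exact hL
    exact this
  have hinv : ∀ {g a b : Equiv.Perm (List Bool)}, a * a = 1 → b * b = 1 → g = a * b →
      a * g * a⁻¹ = g⁻¹ := by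
    intro g a b ha hb hg
    rw [hg, ← mul_assoc, ha, one_mul, mul_inv_rev, inv_of_sq hb]
  refine ⟨?_, ⟨Subgroup.inclusion PPerm_le_SPerm, Subgroup.inclusion_injective _⟩,
    ⟨embHom, embHom_injective⟩, fun g hg => SPerm_strongly_real hg, ?_⟩
  · tfae_have 1 → 2 := fun h => SPerm_eq (hsub h)
    tfae_have 2 → 3 := fun h => ⟨MulEquiv.subgroupCongr h⟩
    tfae_have 3 → 4 := fun ⟨e⟩ => ElemEquiv.of_iso e.symm
    tfae_have 4 → 5 := fun h => conj_coe.1 (h.amb (conj_coe.2 fun g hg => SPerm_ambivalent hg))
    tfae_have 5 → 1 := by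
      intro h
      ext L
      exact ⟨inPSPACE_of_inP, inP_of_conj_inv h⟩
    tfae_have 1 → 6 := fun h g hg => strongly_real (hsub h) hg
    tfae_have 6 → 5 := by
      intro h g hg
      obtain ⟨a, ha, b, hb, h1, h2, h3⟩ := h g hg
      exact ⟨a, ha, hinv h1 h2 h3⟩
    tfae_have 1 → 7 := fun h g hg g' hg' => conj_of (hsub h) hg hg'
    tfae_have 7 → 5 := by
      intro h g hg
      have hL := PPerm_le hg
      refine h g hg g⁻¹ (PPerm.inv_mem hg) ⟨_, rfxP_mem hL, ?_⟩
      exact hinv (rfxP_sq _) (rfxP_mul_sq hL) (by rw [← mul_assoc, rfxP_sq, one_mul])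
    tfae_finish
  · rintro K G (rfl | rfl) h0 h1 h2 h3 h4 Φ
    · exact recog_PPerm ⟨h0, h1⟩ h2 h3 h4 Φ
    · exact recog_SPerm ⟨h0, h1⟩ h2 h3 h4 Φ

end Pool.Agent.Results.MP_f404b1_lc.IsomorphicGroupsH56
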