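import Pool.Agent.V7H67.LI.Dec

/-!
# Labelling problems with input labels on polynomial-time permutations: `P` or `PSPACE`

An instance (`Inst`, in `Pool.Agent.V7H67.LI.Lcl`) is a polynomial-time permutation, a
length-preserving bijection `f` of a set `X` of bit strings in the class `P` onto itself with `f`
and its inverse computable in polynomial time (`PPerm`, in `Pool.Agent.V7H67.LL.Perm`), together
with an input label at every point, whose classes are in `P`. A locally checkable labelling problem
is a set `W` of allowed windows, words of `t + 2` pairs of an input label and an output label; a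
labelling `c` by output labels solves it on the instance if the pairs of labels of `x`, `f x`, ...,
`f^[t + 1] x` form an allowed window for every `x` in `X` (`IsSolution`). The condition `Loc` is
defined in terms of the relations between the words of `t + 1` pairs that the words of input labels
define.
-/

namespace Pool.Agent.Results.MP_f404b1_lc.LocalLabellingInputsH67

open Pool.Agent.NPC Pool.Agent.V7H67.LL Pool.Agent.V7H67.LI
open Pool.Agent.H623R2.PS (InPSPACE)

/-- For every locally checkable labelling problem `W` with `s` input labels and `k` output labels:

1. each instance that has a solution has one whose label classes are in `PSPACE`;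
2. if `W` satisfies the condition `Loc`, each instance that has a solution has one whose label
   classes are in `P`;
3. if not, there is one instance that has solutions and such that every language in `PSPACE` can be
   decided in polynomial time with every solution of it as an oracle;
4. hence, if `Loc` does not hold, the conclusion of 2 holds if and only if `P = PSPACE`;
5. the condition `Loc` is equivalent to the same condition on words of bounded length. -/
theorem result (s k t : ℕ) (hs : 0 < s) (hk : 0 < k)
    (W : Set (Fin (t + 2) → Fin s × Fin k)) :
    (∀ I : Inst s, (∃ c, IsSolution W I c) → ∃ c, IsSolution W I c ∧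
      ∀ v, InPSPACE {x | x ∈ I.X ∧ c x = v}) ∧
    (Loc W → ∀ I : Inst s, (∃ c, IsSolution W I c) → ∃ c, IsSolution W I c ∧
      ∀ v, InP {x | x ∈ I.X ∧ c x = v}) ∧
    (¬ Loc W → ∃ I : Inst s, (∃ c, IsSolution W I c) ∧
      ∀ c, IsSolution W I c → ∀ L, InPSPACE L → InPGiven c L) ∧
    (¬ Loc W → ((∀ I : Inst s, (∃ c, IsSolution W I c) → ∃ c, IsSolution W I c ∧
      ∀ v, InP {x | x ∈ I.X ∧ c x = v}) ↔ ∀ L, InPSPACE L → InP L)) ∧
    (Loc W ↔ LocUpTo (2 ^ (((s * k) ^ (t + 1)) ^ 2)) W) :=
  ⟨lcl_upper W, lcl_easy W, lcl_hard W hs hk, lcl_iff W hs hk, loc_iff_upTo W⟩

end Pool.Agent.Results.MP_f404b1_lc.LocalLabellingInputsH67
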